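import Pool.Agent.X265.KCo.Idm

/-!
# Equivalences of idempotent matrices over the limit exist at a finite stage
-/

set_option autoImplicit false

namespace Pool.Agent.X265.KCo

open Filter Topology UniformSpace Pool.Agent.Y483.CS Matrix

variable {P R : Type} [Group P] [Group R] (S : Sq P R)

theorem Sq.ev_lt {m : ℕ} (z : CMax (S.Q m)) {c : ℝ} (hz : ‖CMax.map (S.h m) z‖ < c) :
    ∀ᶠ n in atTop, ∀ hmn : m ≤ n, ‖CMax.map (S.t m n hmn) z‖ < c := by
  obtain ⟨k, hk, h⟩ := S.norm_lt z hz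
  refine eventually_atTop.2 ⟨k, fun n hn hmn => ?_⟩
  rw [← S.tt m k n hk hn, CMax.map_comp]
  exact (norm_map_le _ _).trans_lt h

theorem Sq.dense : DenseRange (fun a : GA P => toC (GA.map S.g a)) := by
  rw [DenseRange, Metric.dense_iff]
  intro z r hr
  obtain ⟨x, hx⟩ := dense_toC z hr
  obtain ⟨a, rfl⟩ := GA.map_surj S.gsurj x
  refine ⟨toC (GA.map S.g a), ?_, ⟨a, rfl⟩⟩
  rw [mem_ball_iff_norm, norm_sub_rev]
  exact hx

section mat

variable {ι κ : Type}

/-- the matrix over the limit -/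
noncomputable def Sq.F (X : ι → κ → GA P) : Matrix ι κ (CMax R) :=
  fun i j => toC (GA.map S.g (X i j))

/-- the matrix over a stage -/
noncomputable def Sq.Fm (m : ℕ) (X : ι → κ → GA P) : Matrix ι κ (CMax (S.Q m)) :=
  fun i j => toC (GA.map (S.f m) (X i j))

theorem Sq.Fm_map (m : ℕ) (X : ι → κ → GA P) :
    (S.Fm m X).map (CMax.map (S.h m)) = S.F X := by
  ext i j
  show CMax.map (S.h m) (toC (GA.map (S.f m) (X i j))) = toC (GA.map S.g (X i j))
  rw [CMax.map_coe, GA.map_map, S.hf]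

theorem Sq.F_dense : DenseRange (S.F (ι := ι) (κ := κ)) :=
  DenseRange.piMap (f := fun (_ : ι) (x : κ → GA P) (j : κ) => toC (GA.map S.g (x j)))
    (fun _ => DenseRange.piMap (f := fun (_ : κ) (a : GA P) => toC (GA.map S.g a))
      fun _ => S.dense)

theorem mm {G K : Type} [Group G] [Group K] (φ : G →* K) {ι κ μ : Type} [Fintype κ]
    (A : Matrix ι κ (CMax G)) (B : Matrix κ μ (CMax G)) :
    (A * B).map (CMax.map φ) = A.map (CMax.map φ) * B.map (CMax.map φ) := by
  ext i j
  rw [Matrix.map_apply, Matrix.mul_apply, Matrix.mul_apply, map_sum]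
  exact Finset.sum_congr rfl fun k _ => map_mul (CMax.map φ) _ _

theorem ms {G K : Type} [Group G] [Group K] (φ : G →* K) {ι κ : Type}
    (A B : Matrix ι κ (CMax G)) :
    (A - B).map (CMax.map φ) = A.map (CMax.map φ) - B.map (CMax.map φ) := by
  ext i j
  exact map_sub (CMax.map φ) _ _

variable [Fintype ι] [Fintype κ] [DecidableEq ι] [DecidableEq κ]

theorem Sq.eqv_lim {m : ℕ} (e : Matrix ι ι (CMax (S.Q m))) (f : Matrix κ κ (CMax (S.Q m)))
    (he : e * e = e) (hf : f * f = f)
    (h : Eqv (e.map (CMax.map (S.h m))) (f.map (CMax.map (S.h m)))) :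
    ∃ n, ∃ hmn : m ≤ n, Eqv (e.map (CMax.map (S.t m n hmn))) (f.map (CMax.map (S.t m n hmn))) := by
  obtain ⟨x0, y0, hxy, hyx⟩ := h
  have he' : e.map (CMax.map (S.h m)) * e.map (CMax.map (S.h m)) = e.map (CMax.map (S.h m)) := by
    rw [← mm, he]
  have hf' : f.map (CMax.map (S.h m)) * f.map (CMax.map (S.h m)) = f.map (CMax.map (S.h m)) := by
    rw [← mm, hf]
  set e' := e.map (CMax.map (S.h m)) with he'd
  set f' := f.map (CMax.map (S.h m)) with hf'd
  let Φ : Matrix ι κ (CMax R) × Matrix κ ι (CMax R) → Matrix ι ι (CMax R) :=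
    fun p => e' - (e' * p.1 * f') * (f' * p.2 * e')
  let Ψ : Matrix ι κ (CMax R) × Matrix κ ι (CMax R) → Matrix κ κ (CMax R) :=
    fun p => f' - (f' * p.2 * e') * (e' * p.1 * f')
  have hΦ : Continuous Φ :=
    continuous_const.sub (((continuous_const.matrix_mul continuous_fst).matrix_mul
      continuous_const).matrix_mul ((continuous_const.matrix_mul continuous_snd).matrix_mul
      continuous_const))
  have hΨ : Continuous Ψ :=
    continuous_const.sub (((continuous_const.matrix_mul continuous_snd).matrix_mul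
      continuous_const).matrix_mul ((continuous_const.matrix_mul continuous_fst).matrix_mul
      continuous_const))
  have hΦ0 : Φ (x0, y0) = 0 := by
    show e' - (e' * x0 * f') * (f' * y0 * e') = 0
    have : (e' * x0 * f') * (f' * y0 * e') = e' * (x0 * y0) * (x0 * y0) * e' := by
      calc (e' * x0 * f') * (f' * y0 * e') = e' * x0 * (f' * f') * y0 * e' := by
            simp only [Matrix.mul_assoc]
        _ = e' * (x0 * y0) * (x0 * y0) * e' := by
            rw [hf', ← hyx]; simp only [Matrix.mul_assoc]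
    rw [this, hxy, he', he', he', sub_self]
  have hΨ0 : Ψ (x0, y0) = 0 := by
    show f' - (f' * y0 * e') * (e' * x0 * f') = 0
    have : (f' * y0 * e') * (e' * x0 * f') = f' * (y0 * x0) * (y0 * x0) * f' := by
      calc (f' * y0 * e') * (e' * x0 * f') = f' * y0 * (e' * e') * x0 * f' := by
            simp only [Matrix.mul_assoc]
        _ = f' * (y0 * x0) * (y0 * x0) * f' := by
            rw [he', ← hxy]; simp only [Matrix.mul_assoc]
    rw [this, hyx, hf', hf', hf', sub_self]
  let W : Set (Matrix ι κ (CMax R) × Matrix κ ι (CMax R)) :=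
    {p | (∀ i j, ‖Φ p i j‖ < 1 / (Fintype.card ι + 1)) ∧
      ∀ i j, ‖Ψ p i j‖ < 1 / (Fintype.card κ + 1)}
  have hW : IsOpen W := by
    have h1 : IsOpen {p | ∀ i j, ‖Φ p i j‖ < 1 / (Fintype.card ι + 1)} := by
      simp only [Set.setOf_forall]
      refine isOpen_iInter_of_finite fun i => isOpen_iInter_of_finite fun j => ?_
      exact isOpen_lt (hΦ.matrix_elem i j).norm continuous_const
    have h2 : IsOpen {p | ∀ i j, ‖Ψ p i j‖ < 1 / (Fintype.card κ + 1)} := by
      simp only [Set.setOf_forall]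
      refine isOpen_iInter_of_finite fun i => isOpen_iInter_of_finite fun j => ?_
      exact isOpen_lt (hΨ.matrix_elem i j).norm continuous_const
    exact h1.inter h2
  have hne : (x0, y0) ∈ W := by
    refine ⟨fun i j => ?_, fun i j => ?_⟩
    · rw [hΦ0, Matrix.zero_apply, norm_zero]; positivity
    · rw [hΨ0, Matrix.zero_apply, norm_zero]; positivity
  obtain ⟨⟨X, Y⟩, hXY⟩ := (S.F_dense.prodMap S.F_dense).exists_mem_open hW ⟨_, hne⟩
  have hXY1 : ∀ i j, ‖(e' - (e' * S.F X * f') * (f' * S.F Y * e')) i j‖ <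
    1 / (Fintype.card ι + 1) := hXY.1
  have hXY2 : ∀ i j, ‖(f' - (f' * S.F Y * e') * (e' * S.F X * f')) i j‖ <
    1 / (Fintype.card κ + 1) := hXY.2
  let x := e * S.Fm m X * f
  let y := f * S.Fm m Y * e
  have hw : (e - x * y).map (CMax.map (S.h m)) =
      e' - (e' * S.F X * f') * (f' * S.F Y * e') := by
    rw [ms, mm, mm,
      mm, mm, mm, S.Fm_map, S.Fm_map]
  have hw' : (f - y * x).map (CMax.map (S.h m)) =
      f' - (f' * S.F Y * e') * (e' * S.F X * f') := by
    rw [ms, mm, mm,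
      mm, mm, mm, S.Fm_map, S.Fm_map]
  have ev1 : ∀ᶠ n in atTop, ∀ i j, ∀ hmn : m ≤ n,
      ‖CMax.map (S.t m n hmn) ((e - x * y) i j)‖ < 1 / (Fintype.card ι + 1) := by
    rw [eventually_all]; intro i
    rw [eventually_all]; intro j
    apply S.ev_lt
    have := hXY1 i j
    rw [← hw] at this
    exact this
  have ev2 : ∀ᶠ n in atTop, ∀ i j, ∀ hmn : m ≤ n,
      ‖CMax.map (S.t m n hmn) ((f - y * x) i j)‖ < 1 / (Fintype.card κ + 1) := by
    rw [eventually_all]; intro i
    rw [eventually_all]; intro j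
    apply S.ev_lt
    have := hXY2 i j
    rw [← hw'] at this
    exact this
  obtain ⟨n, ⟨h1, h2⟩, hmn⟩ := ((ev1.and ev2).and (eventually_ge_atTop m)).exists
  refine ⟨n, hmn, ?_⟩
  have hx1 : e * x = x := by
    show e * (e * S.Fm m X * f) = e * S.Fm m X * f
    rw [← Matrix.mul_assoc, ← Matrix.mul_assoc, he]
  have hx2 : x * f = x := by
    show e * S.Fm m X * f * f = e * S.Fm m X * f
    rw [Matrix.mul_assoc, hf]
  have hy1 : f * y = y := by
    show f * (f * S.Fm m Y * e) = f * S.Fm m Y * e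
    rw [← Matrix.mul_assoc, ← Matrix.mul_assoc, hf]
  have hy2 : y * e = y := by
    show f * S.Fm m Y * e * e = f * S.Fm m Y * e
    rw [Matrix.mul_assoc, he]
  refine eqv_of_near _ _ ?_ ?_ (x.map (CMax.map (S.t m n hmn))) (y.map (CMax.map (S.t m n hmn)))
    ?_ ?_ ?_ ?_ ?_ ?_
  · rw [← mm, he]
  · rw [← mm, hf]
  · rw [← mm, hx1]
  · rw [← mm, hx2]
  · rw [← mm, hy1]
  · rw [← mm, hy2]
  · apply isUnit_of_small
    intro i j
    rw [← mm, ← ms]
    exact h1 i j hmn
  · apply isUnit_of_small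
    intro i j
    rw [← mm, ← ms]
    exact h2 i j hmn

end mat

end Pool.Agent.X265.KCo
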