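import Pool.Agent.X265.KCo.Lim
import Pool.Agent.Y483.CS.Iso

/-!
# Equivalence of idempotent matrices over the limit
-/

set_option autoImplicit false

namespace Pool.Agent.X265.KCo

open Filter Topology UniformSpace Pool.Agent.Y483.CS Matrix

/-- nearly inverse matrices give an equivalence of idempotent matrices -/
theorem eqv_of_near {R : Type} [Ring R] {ι κ : Type} [Fintype ι] [Fintype κ] [DecidableEq ι]
    [DecidableEq κ] (e : Matrix ι ι R) (f : Matrix κ κ R) (he : e * e = e) (hf : f * f = f)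
    (x : Matrix ι κ R) (y : Matrix κ ι R) (hx1 : e * x = x) (hx2 : x * f = x) (hy1 : f * y = y)
    (hy2 : y * e = y) (hu : IsUnit (1 - (e - x * y))) (hu' : IsUnit (1 - (f - y * x))) :
    Eqv e f := by
  obtain ⟨u, hu⟩ := hu
  obtain ⟨u', hu'⟩ := hu'
  have h1 : e * (u : Matrix ι ι R) = x * y := by
    rw [hu, mul_sub, mul_one, mul_sub, he, ← Matrix.mul_assoc, hx1]
    abel
  have h2 : x * y * ((u⁻¹ : (Matrix ι ι R)ˣ) : Matrix ι ι R) = e := by
    rw [← h1, mul_assoc, Units.mul_inv, mul_one]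
  let w := ((u⁻¹ : (Matrix ι ι R)ˣ) : Matrix ι ι R) * e
  have h3 : x * y * w = e := by
    show x * y * (_ * e) = e
    rw [← mul_assoc, h2, he]
  let y' := y * w
  have h4 : x * y' = e := by
    show x * (y * w) = e
    rw [← Matrix.mul_assoc, h3]
  have h5 : f * y' = y' := by
    show f * (y * w) = y * w
    rw [← Matrix.mul_assoc, hy1]
  refine ⟨x, y', h4, ?_⟩
  have h6 : (u' : Matrix κ κ R) * (y' * x) = y * x := by
    rw [hu', sub_mul, one_mul, sub_mul, ← Matrix.mul_assoc f, h5, Matrix.mul_assoc y x,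
      ← Matrix.mul_assoc x, h4, hx1]
    abel
  have h7 : (u' : Matrix κ κ R) * f = y * x := by
    rw [hu', sub_mul, one_mul, sub_mul, hf, Matrix.mul_assoc, hx2]
    abel
  have h8 := congrArg (fun z => ((u'⁻¹ : (Matrix κ κ R)ˣ) : Matrix κ κ R) * z) (h6.trans h7.symm)
  beta_reduce at h8
  rwa [← mul_assoc, ← mul_assoc, Units.inv_mul, one_mul, one_mul] at h8

attribute [local instance] Matrix.linftyOpNormedRing in
theorem isUnit_of_small {A : Type} [NormedRing A] [CompleteSpace A] {ι : Type} [Fintype ι]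
    [DecidableEq ι] (w : Matrix ι ι A) (h : ∀ i j, ‖w i j‖ < 1 / (Fintype.card ι + 1)) :
    IsUnit (1 - w) := by
  have hc : @CompleteSpace (Matrix ι ι A)
      (Matrix.linftyOpNormedRing (n := ι) (α := A)).toMetricSpace.toPseudoMetricSpace.toUniformSpace :=
    inferInstanceAs (CompleteSpace (ι → ι → A))
  have hn : ‖w‖ < 1 := by
    rw [Matrix.linfty_opNorm_def]
    rw [← NNReal.coe_one, NNReal.coe_lt_coe]
    rw [Finset.sup_lt_iff (by exact zero_lt_one)]
    intro i _
    rw [← NNReal.coe_lt_coe]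
    push_cast
    have h1 : ∑ j, ‖w i j‖ ≤ ∑ _j : ι, (1 / (Fintype.card ι + 1) : ℝ) :=
      Finset.sum_le_sum fun j _ => (h i j).le
    refine h1.trans_lt ?_
    rw [Finset.sum_const, nsmul_eq_mul, Finset.card_univ, mul_one_div, div_lt_one (by positivity)]
    linarith
  exact (Units.oneSub w hn).isUnit

end Pool.Agent.X265.KCo
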