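import Pool.Agent.X265.KCo.Eqv

/-!
# `K_0` of the maximal group C*-algebra of the limit
-/

set_option autoImplicit false

namespace Pool.Agent.X265.KCo

open Pool.Agent.Y483.CS Matrix TensorProduct

theorem exists_sub {R : Type} [Ring R] (z : K0 R) :
    ∃ (a b : ℕ) (e : Matrix (Fin a) (Fin a) R) (f : Matrix (Fin b) (Fin b) R) (he : e * e = e)
      (hf : f * f = f), z = K0.cls e he - K0.cls f hf := by
  let s : Set (K0 R) := {z | ∃ (a : ℕ) (e : Matrix (Fin a) (Fin a) R) (he : e * e = e),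
    z = K0.cls e he}
  have h1 : AddSubgroup.closure s = ⊤ := by
    have h2 : QuotientAddGroup.mk' (AddSubgroup.closure s) = 0 := by
      apply K0.hom_ext
      intro n e he
      exact (QuotientAddGroup.eq_zero_iff _).2 (AddSubgroup.subset_closure ⟨n, e, he, rfl⟩)
    rw [eq_top_iff]
    intro x _
    exact (QuotientAddGroup.eq_zero_iff x).1 (DFunLike.congr_fun h2 x)
  have h3 : z ∈ AddSubgroup.closure s := by rw [h1]; trivial
  have hsum : ∀ (a b : ℕ) (e : Matrix (Fin a) (Fin a) R) (f : Matrix (Fin b) (Fin b) R)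
      (he : e * e = e) (hf : f * f = f), ∃ (c : ℕ) (g : Matrix (Fin c) (Fin c) R) (hg : g * g = g),
      K0.cls e he + K0.cls f hf = K0.cls g hg := by
    intro a b e f he hf
    have h4 := cls_sum' (R := R) ⟨a, e, he⟩ ⟨b, f, hf⟩
    exact ⟨_, _, _, h4.symm⟩
  induction h3 using AddSubgroup.closure_induction with
  | mem x hx =>
    obtain ⟨a, e, he, rfl⟩ := hx
    refine ⟨a, 0, e, 0, he, by simp, ?_⟩
    rw [K0.cls_zero, sub_zero]
  | zero =>
    exact ⟨0, 0, 0, 0, by simp, by simp, (sub_self _).symm⟩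
  | add x y _ _ hx hy =>
    obtain ⟨a, b, e, f, he, hf, rfl⟩ := hx
    obtain ⟨a', b', e', f', he', hf', rfl⟩ := hy
    obtain ⟨c, g, hg, h5⟩ := hsum a a' e e' he he'
    obtain ⟨c', g', hg', h6⟩ := hsum b b' f f' hf hf'
    refine ⟨c, c', g, g', hg, hg', ?_⟩
    rw [← h5, ← h6]
    abel
  | neg x _ hx =>
    obtain ⟨a, b, e, f, he, hf, rfl⟩ := hx
    exact ⟨b, a, f, e, hf, he, neg_sub _ _⟩

variable {P R : Type} [Group P] [Group R] (S : Sq P R)

theorem blocks_map {G K : Type} [Group G] [Group K] (φ : G →* K) {a r : ℕ}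
    (e : Matrix (Fin a) (Fin a) (CMax G)) :
    (fromBlocks e 0 0 (1 : Matrix (Fin r) (Fin r) (CMax G))).map (CMax.map φ) =
      fromBlocks (e.map (CMax.map φ)) 0 0 (1 : Matrix (Fin r) (Fin r) (CMax K)) := by
  rw [fromBlocks_map]
  congr 1
  · ext i j; exact map_zero (CMax.map φ)
  · ext i j; exact map_zero (CMax.map φ)
  · exact Matrix.map_one _ (map_zero (CMax.map φ)) (map_one (CMax.map φ))

/-- **`K_0` commutes with the limit** -/
theorem Sq.k0_lim {m : ℕ} (z : K0 (CMax (S.Q m)))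
    (hz : K0.map (nu (CMax.map (S.h m))) z = 0) :
    ∃ n, ∃ hmn : m ≤ n, K0.map (nu (CMax.map (S.t m n hmn))) z = 0 := by
  obtain ⟨a, b, e, f, he, hf, rfl⟩ := exists_sub z
  rw [map_sub, sub_eq_zero, K0.map_cls, K0.map_cls, K0.cls_eq_iff] at hz
  obtain ⟨r, hr⟩ := hz
  have h1 : Eqv ((fromBlocks e 0 0 (1 : Matrix (Fin r) (Fin r) _)).map (CMax.map (S.h m)))
      ((fromBlocks f 0 0 (1 : Matrix (Fin r) (Fin r) _)).map (CMax.map (S.h m))) := by
    rw [blocks_map, blocks_map]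
    exact hr
  obtain ⟨n, hmn, h2⟩ := S.eqv_lim _ _ (fromBlocks_idem he (by simp))
    (fromBlocks_idem hf (by simp)) h1
  refine ⟨n, hmn, ?_⟩
  rw [map_sub, sub_eq_zero, K0.map_cls, K0.map_cls, K0.cls_eq_iff]
  refine ⟨r, ?_⟩
  rw [blocks_map, blocks_map] at h2
  exact h2

theorem exists_int {M : Type} [AddCommGroup M] (y : ℚ ⊗[ℤ] M) :
    ∃ (k : ℕ) (z : M), 0 < k ∧ (k : ℚ) • y = (1 : ℚ) ⊗ₜ[ℤ] z := by
  induction y using TensorProduct.induction_on with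
  | zero => exact ⟨1, 0, one_pos, by rw [smul_zero, TensorProduct.tmul_zero]⟩
  | tmul q z =>
    refine ⟨q.den, q.num • z, q.den_pos, ?_⟩
    rw [TensorProduct.smul_tmul', smul_eq_mul, Rat.den_mul_eq_num, ← TensorProduct.smul_tmul,
      zsmul_eq_mul, mul_one]
  | add x y hx hy =>
    obtain ⟨k, z, hk, h1⟩ := hx
    obtain ⟨l, w, hl, h2⟩ := hy
    refine ⟨k * l, (l : ℤ) • z + (k : ℤ) • w, Nat.mul_pos hk hl, ?_⟩
    rw [smul_add, TensorProduct.tmul_add, TensorProduct.tmul_smul, TensorProduct.tmul_smul, ← h1,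
      ← h2]
    push_cast
    rw [mul_smul, mul_smul, smul_comm (k : ℚ) (l : ℚ) x]
    simp only [← Int.cast_smul_eq_zsmul ℚ, Int.cast_natCast]

theorem tors {M : Type} [AddCommGroup M] (z : M) (h : (1 : ℚ) ⊗ₜ[ℤ] z = 0) :
    ∃ k : ℕ, 0 < k ∧ k • z = 0 := by
  have h1 := (IsLocalizedModule.eq_zero_iff (nonZeroDivisors ℤ)
    (TensorProduct.mk ℤ ℚ M 1) (m := z)).1 h
  obtain ⟨c, hc⟩ := h1
  have hc0 : (c : ℤ) ≠ 0 := nonZeroDivisors.ne_zero c.2
  have hc' : (c : ℤ) • z = 0 := hc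
  refine ⟨(c : ℤ).natAbs, Int.natAbs_pos.2 hc0, ?_⟩
  rw [← natCast_zsmul]
  rcases Int.natAbs_eq (c : ℤ) with h2 | h2
  · rw [← h2, hc']
  · have h3 : (((c : ℤ).natAbs : ℕ) : ℤ) = -(c : ℤ) := by omega
    rw [h3, neg_smul, hc', neg_zero]

/-- **`ℚ ⊗ K_0` commutes with the limit** -/
theorem Sq.kq_lim {m : ℕ} (x : KQ (CMax (S.Q m))) (hx : KQ.map (CMax.map (S.h m)) x = 0) :
    ∃ n, ∃ hmn : m ≤ n, KQ.map (CMax.map (S.t m n hmn)) x = 0 := by
  obtain ⟨k, z, hk, h1⟩ := exists_int (toK _ x)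
  have h2 : (1 : ℚ) ⊗ₜ[ℤ] K0.map (nu (CMax.map (S.h m))) z = 0 := by
    rw [← K0.mapQ_tmul, ← h1, map_smul, ← toK_nat, hx, map_zero, smul_zero]
  obtain ⟨l, hl, h3⟩ := tors _ h2
  rw [← map_nsmul] at h3
  obtain ⟨n, hmn, h4⟩ := S.k0_lim (l • z) h3
  refine ⟨n, hmn, ?_⟩
  have h5 : (l * k : ℚ) • toK _ (KQ.map (CMax.map (S.t m n hmn)) x) = 0 := by
    rw [toK_nat, mul_smul, ← map_smul, h1, K0.mapQ_tmul]
    have h6 : (l : ℚ) • ((1 : ℚ) ⊗ₜ[ℤ] K0.map (nu (CMax.map (S.t m n hmn))) z) =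
        (1 : ℚ) ⊗ₜ[ℤ] K0.map (nu (CMax.map (S.t m n hmn))) (l • z) := by
      rw [map_nsmul, ← natCast_zsmul, TensorProduct.tmul_smul, ← Int.cast_smul_eq_zsmul ℚ,
        Int.cast_natCast]
    rw [h6, h4, TensorProduct.tmul_zero]
  have h7 : toK _ (KQ.map (CMax.map (S.t m n hmn)) x) = 0 := by
    rcases smul_eq_zero.1 h5 with h | h
    · exfalso
      have : (l * k : ℚ) ≠ 0 := by positivity
      exact this h
    · exact h
  rw [← fromK_toK (KQ.map (CMax.map (S.t m n hmn)) x), h7, map_zero]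

end Pool.Agent.X265.KCo
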