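import Pool.Agent.X265.KCo.Rep

/-!
# Norm continuity for sequences of quotients
-/

set_option autoImplicit false

namespace Pool.Agent.X265.KCo

open Filter Topology UniformSpace Pool.Agent.Y483.CS

/-- an increasing sequence of quotients `Q n` of `P` with the limit `R` -/
structure Sq (P R : Type) [Group P] [Group R] where
  /-- the quotients -/
  Q : ℕ → Type
  [grp : ∀ n, Group (Q n)]
  /-- the projections of `P` -/
  f : ∀ n, P →* Q n
  surj : ∀ n, Function.Surjective (f n)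
  /-- the maps to the limit -/
  h : ∀ n, Q n →* R
  /-- the projection of `P` to the limit -/
  g : P →* R
  gsurj : Function.Surjective g
  hf : ∀ n, (h n).comp (f n) = g
  /-- the maps of the sequence -/
  t : ∀ m n, m ≤ n → (Q m →* Q n)
  tf : ∀ m n (hmn : m ≤ n), (t m n hmn).comp (f m) = f n
  ker : ∀ p, g p = 1 → ∃ n, f n p = 1

attribute [instance] Sq.grp

variable {P R : Type} [Group P] [Group R] (S : Sq P R)

theorem Sq.f_le {m n : ℕ} (h : m ≤ n) {p q : P} (hpq : S.f m p = S.f m q) : S.f n p = S.f n q := by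
  rw [← S.tf m n h, MonoidHom.comp_apply, MonoidHom.comp_apply, hpq]

theorem Sq.ev_eq {p q : P} (h : S.g p = S.g q) : ∀ᶠ n in atTop, S.f n p = S.f n q := by
  obtain ⟨m, hm⟩ := S.ker (p⁻¹ * q) (by rw [map_mul, map_inv, h, inv_mul_cancel])
  rw [map_mul, map_inv, inv_mul_eq_one] at hm
  exact eventually_atTop.2 ⟨m, fun n hn => S.f_le hn hm⟩

theorem Sq.hf_apply (n : ℕ) (p : P) : S.h n (S.f n p) = S.g p := by
  rw [← S.hf n]; rfl

theorem Sq.tf_apply (m n : ℕ) (hmn : m ≤ n) (p : P) : S.t m n hmn (S.f m p) = S.f n p := by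
  rw [← S.tf m n hmn]; rfl

theorem Sq.ht (m n : ℕ) (hmn : m ≤ n) : (S.h n).comp (S.t m n hmn) = S.h m := by
  apply MonoidHom.ext
  intro x
  obtain ⟨p, rfl⟩ := S.surj m x
  rw [MonoidHom.comp_apply, S.tf_apply, S.hf_apply, S.hf_apply]

theorem Sq.tt (l m n : ℕ) (h1 : l ≤ m) (h2 : m ≤ n) :
    (S.t m n h2).comp (S.t l m h1) = S.t l n (h1.trans h2) := by
  apply MonoidHom.ext
  intro x
  obtain ⟨p, rfl⟩ := S.surj l x
  rw [MonoidHom.comp_apply, S.tf_apply, S.tf_apply, S.tf_apply]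

/-- a sequence of representations of the quotients with unit vectors -/
structure Sq.Dt where
  /-- the representations -/
  π : ∀ n, URep (S.Q n)
  /-- the vectors -/
  ξ : ∀ n, (π n).X.H
  nrm : ∀ n, ‖ξ n‖ = 1

variable {S} (D : S.Dt)

/-- the data on `P` -/
noncomputable def Sq.Dt.dat : Dat P where
  π n := (D.π n).pull (S.f n)
  ξ n := D.ξ n
  nrm n := D.nrm n

theorem Sq.Dt.op_eq {p q : P} (h : S.g p = S.g q) : D.dat.op p = D.dat.op q := by
  apply Dat.op_congr
  filter_upwards [S.ev_eq h] with n hn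
  show (D.π n).rep (S.f n p) = (D.π n).rep (S.f n q)
  rw [hn]

theorem Dat.norm_one' {P : Type} [Group P] (D : Dat P) : ‖(D.toE 1 : D.E)‖ = 1 := by
  have h1 := D.tends_norm (D.toE 1)
  have h2 : (fun n => ‖D.v n (D.toE.symm (D.toE 1))‖ ^ 2) = fun _ => (1 : ℝ) := by
    funext n
    rw [LinearEquiv.symm_apply_apply, D.v_one, D.nrm, one_pow]
  rw [h2] at h1
  have h3 := tendsto_nhds_unique h1 tendsto_const_nhds
  have h4 : (0 : ℝ) ≤ ‖(D.toE 1 : D.E)‖ := norm_nonneg _
  nlinarith [sq_nonneg (‖(D.toE 1 : D.E)‖ - 1), h3, h4]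

theorem Dat.nontriv {P : Type} [Group P] (D : Dat P) : Nontrivial D.HH := by
  refine ⟨⟨((D.toE 1 : D.E) : D.HH), 0, fun h => ?_⟩⟩
  have h1 := congrArg norm h
  rw [Completion.norm_coe, D.norm_one', norm_zero] at h1
  exact one_ne_zero h1

/-- the Hilbert space -/
noncomputable def Dat.hs {P : Type} [Group P] (D : Dat P) : HS :=
  haveI := D.nontriv
  ⟨D.HH⟩

/-- the representation of the limit -/
noncomputable def Sq.Dt.rep : URep R where
  X := D.dat.hs
  rep :=
    { toFun := fun r => (show D.dat.HH →L[ℂ] D.dat.HH from D.dat.op (Function.surjInv S.gsurj r))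
      map_one' := by
        have h : D.dat.op (Function.surjInv S.gsurj 1) = D.dat.op 1 :=
          D.op_eq (by rw [Function.surjInv_eq S.gsurj, map_one])
        show D.dat.op (Function.surjInv S.gsurj 1) = ContinuousLinearMap.id ℂ D.dat.HH
        rw [h, D.dat.op_one]
      map_mul' := by
        intro a b
        have h : D.dat.op (Function.surjInv S.gsurj (a * b)) =
            D.dat.op (Function.surjInv S.gsurj a * Function.surjInv S.gsurj b) :=
          D.op_eq (by rw [map_mul, Function.surjInv_eq S.gsurj, Function.surjInv_eq S.gsurj,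
            Function.surjInv_eq S.gsurj])
        show D.dat.op (Function.surjInv S.gsurj (a * b)) =
          (D.dat.op (Function.surjInv S.gsurj a)).comp (D.dat.op (Function.surjInv S.gsurj b))
        rw [h, D.dat.op_comp] }
  norm_le r := D.dat.op_norm _

theorem Sq.Dt.rep_apply (p : P) : app (D.rep.rep (S.g p)) ((D.dat.toE 1 : D.dat.E) : D.dat.HH) =
    ((D.dat.toE (MonoidAlgebra.single p 1) : D.dat.E) : D.dat.HH) := by
  have h : D.dat.op (Function.surjInv S.gsurj (S.g p)) = D.dat.op p :=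
    D.op_eq (by rw [Function.surjInv_eq S.gsurj])
  show D.dat.op (Function.surjInv S.gsurj (S.g p)) ((D.dat.toE 1 : D.dat.E) : D.dat.HH) = _
  rw [h, D.dat.op_coe, D.dat.lm_apply, LinearEquiv.symm_apply_apply, mul_one]

theorem Sq.Dt.rep_alg (a : GA P) :
    app (D.rep.alg (GA.map S.g a)) ((D.dat.toE 1 : D.dat.E) : D.dat.HH) =
      ((D.dat.toE a : D.dat.E) : D.dat.HH) := by
  induction a using GA.ind with
  | h0 =>
    rw [map_zero, D.rep.alg_zero]
    show (0 : D.dat.HH →L[ℂ] D.dat.HH) _ = ((D.dat.toE 0 : D.dat.E) : D.dat.HH)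
    rw [map_zero]
    exact (Completion.coe_zero (α := D.dat.E)).symm
  | hadd x y hx hy =>
    rw [map_add, D.rep.alg_add]
    show app (D.rep.alg (GA.map S.g x)) ((D.dat.toE 1 : D.dat.E) : D.dat.HH) +
      app (D.rep.alg (GA.map S.g y)) ((D.dat.toE 1 : D.dat.E) : D.dat.HH) = _
    rw [hx, hy]
    have h1 : D.dat.toE (x + y) = D.dat.toE x + D.dat.toE y := map_add D.dat.toE _ _
    rw [h1]
    exact (Completion.coe_add (α := D.dat.E) _ _).symm
  | hs g c =>
    rw [GA.map_single, D.rep.alg_single]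
    show c • app (D.rep.rep (S.g g)) ((D.dat.toE 1 : D.dat.E) : D.dat.HH) = _
    rw [D.rep_apply]
    have h1 : D.dat.toE (MonoidAlgebra.single g c) =
        c • D.dat.toE (MonoidAlgebra.single g (1 : ℂ)) := by
      rw [← map_smul, MonoidAlgebra.smul_single, smul_eq_mul, mul_one]
    rw [h1]
    exact (Completion.coe_smul (X := D.dat.E) _ _).symm

theorem exists_vec {X : HS} (A : X.Op) {c : ℝ} (hc : 0 ≤ c) (h : c < ‖A‖) :
    ∃ x : X.H, ‖x‖ = 1 ∧ c < ‖app A x‖ := by
  by_contra hcon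
  push Not at hcon
  apply absurd h
  rw [not_lt]
  refine ContinuousLinearMap.opNorm_le_bound (show X.H →L[ℂ] X.H from A) hc fun x => ?_
  by_cases hx : x = 0
  · subst hx
    have h0 : (show X.H →L[ℂ] X.H from A) 0 = 0 := map_zero _
    rw [h0, norm_zero, mul_zero]
  · have hn : ‖x‖ ≠ 0 := norm_ne_zero_iff.2 hx
    have h1 := hcon (((‖x‖⁻¹ : ℝ) : ℂ) • x) (by
      rw [norm_smul, Complex.norm_real, norm_inv, norm_norm, inv_mul_cancel₀ hn])
    have h2 : app A (((‖x‖⁻¹ : ℝ) : ℂ) • x) = ((‖x‖⁻¹ : ℝ) : ℂ) • app A x :=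
      map_smul (show X.H →L[ℂ] X.H from A) _ _
    rw [h2, norm_smul, Complex.norm_real, norm_inv, norm_norm] at h1
    have h3 : ‖app A x‖ = ‖x‖ * (‖x‖⁻¹ * ‖app A x‖) := by
      rw [← mul_assoc, mul_inv_cancel₀ hn, one_mul]
    show ‖app A x‖ ≤ _
    rw [h3, mul_comm c]
    exact mul_le_mul_of_nonneg_left h1 (norm_nonneg _)

/-- **norm continuity on the group algebra** -/
theorem Sq.norm_lim (S : Sq P R) (a : GA P) (c : ℝ) (hc : ∀ n, c ≤ ‖GA.map (S.f n) a‖) :
    c ≤ ‖GA.map S.g a‖ := by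
  by_contra hlt
  rw [not_le] at hlt
  obtain ⟨c', h1, h2⟩ := exists_between hlt
  have h0 : 0 ≤ c' := (norm_nonneg _).trans h1.le
  have hex : ∀ n, ∃ (π : URep (S.Q n)) (ξ : π.X.H), ‖ξ‖ = 1 ∧
      c' < ‖app (π.alg (GA.map (S.f n) a)) ξ‖ := by
    intro n
    have h3 : ∃ π : URep (S.Q n), c' < ‖π.alg (GA.map (S.f n) a)‖ := by
      by_contra hcon
      push Not at hcon
      have h4 := GA.mx_le h0 hcon
      exact absurd (h2.trans_le (hc n)) (not_lt.2 h4)
    obtain ⟨π, hπ⟩ := h3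
    obtain ⟨ξ, hξ, hξ'⟩ := exists_vec _ h0 hπ
    exact ⟨π, ξ, hξ, hξ'⟩
  choose π ξ hξ hξ' using hex
  let D : S.Dt := ⟨π, ξ, hξ⟩
  have h5 : c' ≤ ‖(D.dat.toE a : D.dat.E)‖ := by
    have h6 := D.dat.tends_norm (D.dat.toE a)
    have h7 : c' ^ 2 ≤ ‖(D.dat.toE a : D.dat.E)‖ ^ 2 := by
      refine ge_of_tendsto' h6 fun n => ?_
      rw [LinearEquiv.symm_apply_apply]
      refine pow_le_pow_left₀ h0 ?_ 2
      have h8 := (hξ' n).le
      rw [(π n).alg_map] at h8
      exact h8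
    exact (sq_le_sq₀ h0 (norm_nonneg _)).1 h7
  have h9 : ‖((D.dat.toE a : D.dat.E) : D.dat.HH)‖ ≤ ‖D.rep.alg (GA.map S.g a)‖ * 1 := by
    rw [← D.rep_alg]
    refine (norm_app_le _ _).trans (le_of_eq ?_)
    congr 1
    exact (Completion.norm_coe _).trans D.dat.norm_one'
  rw [Completion.norm_coe, mul_one] at h9
  exact absurd ((h5.trans h9).trans (D.rep.norm_alg_le _)) (not_le.2 h1)

theorem norm_toC {G : Type} [Group G] (x : GA G) : ‖toC x‖ = ‖x‖ := Completion.norm_coe x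

theorem toC_sub {G : Type} [Group G] (x y : GA G) : toC (x - y) = toC x - toC y :=
  Completion.coe_sub x y

theorem norm_map_le {G K : Type} [Group G] [Group K] (f : G →* K) (z : CMax G) :
    ‖CMax.map f z‖ ≤ ‖z‖ := by
  refine Completion.induction_on (α := GA G) (p := fun z => ‖CMax.map f z‖ ≤ ‖z‖) z
    (isClosed_le (CMax.map_continuous f).norm continuous_norm) fun x => ?_
  have h := CMax.map_coe f x
  show ‖CMax.map f (toC x)‖ ≤ ‖toC x‖
  rw [h, norm_toC, norm_toC]
  exact GA.norm_map_le f x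

theorem dense_toC {G : Type} [Group G] (z : CMax G) {ε : ℝ} (hε : 0 < ε) :
    ∃ x : GA G, ‖z - toC x‖ < ε := by
  have h := (Completion.denseRange_coe (α := GA G)).exists_dist_lt (show Completion (GA G) from z) hε
  obtain ⟨x, hx⟩ := h
  refine ⟨x, ?_⟩
  rw [← dist_eq_norm]
  exact hx

theorem GA.map_map {G K L : Type} [Group G] [Group K] [Group L] (g : K →* L) (f : G →* K)
    (x : GA G) : GA.map g (GA.map f x) = GA.map (g.comp f) x := by
  induction x using GA.ind with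
  | h0 => rw [map_zero, map_zero, map_zero]
  | hadd x y hx hy => rw [map_add, map_add, map_add, hx, hy]
  | hs g c => rw [GA.map_single, GA.map_single, GA.map_single]; rfl

theorem GA.map_surj {G K : Type} [Group G] [Group K] {f : G →* K} (hf : Function.Surjective f)
    (y : GA K) : ∃ x : GA G, GA.map f x = y := by
  induction y using GA.ind with
  | h0 => exact ⟨0, map_zero _⟩
  | hadd x y hx hy =>
    obtain ⟨a, rfl⟩ := hx
    obtain ⟨b, rfl⟩ := hy
    exact ⟨a + b, map_add _ _ _⟩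
  | hs g c =>
    obtain ⟨p, rfl⟩ := hf g
    exact ⟨(MonoidAlgebra.single p c : MonoidAlgebra ℂ G), GA.map_single _ _ _⟩

/-- **norm continuity** -/
theorem Sq.norm_lt (S : Sq P R) {m : ℕ} (z : CMax (S.Q m)) {c : ℝ}
    (hz : ‖CMax.map (S.h m) z‖ < c) : ∃ n, ∃ hmn : m ≤ n, ‖CMax.map (S.t m n hmn) z‖ < c := by
  obtain ⟨x, hx⟩ := dense_toC z (show 0 < (c - ‖CMax.map (S.h m) z‖) / 3 by linarith)
  obtain ⟨a, rfl⟩ := GA.map_surj (S.surj m) x
  have h1 : ‖CMax.map (S.h m) (z - toC (GA.map (S.f m) a))‖ ≤ ‖z - toC (GA.map (S.f m) a)‖ :=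
    norm_map_le _ _
  rw [map_sub, CMax.map_coe, GA.map_map, S.hf] at h1
  have h2 : ‖GA.map S.g a‖ < ‖CMax.map (S.h m) z‖ + (c - ‖CMax.map (S.h m) z‖) / 3 := by
    have h3 := norm_sub_norm_le (toC (GA.map S.g a)) (CMax.map (S.h m) z)
    rw [norm_sub_rev, norm_toC] at h3
    linarith
  obtain ⟨n, hn⟩ : ∃ n, ‖GA.map (S.f n) a‖ < ‖CMax.map (S.h m) z‖ +
      (c - ‖CMax.map (S.h m) z‖) / 3 := by
    by_contra hcon
    push Not at hcon
    exact absurd h2 (not_lt.2 (S.norm_lim a _ hcon))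
  have hmax : ‖GA.map (S.f (max m n)) a‖ ≤ ‖GA.map (S.f n) a‖ := by
    rw [← S.tf n (max m n) (le_max_right m n), ← GA.map_map]
    exact GA.norm_map_le _ _
  refine ⟨max m n, le_max_left m n, ?_⟩
  have h4 : ‖CMax.map (S.t m (max m n) (le_max_left m n)) (z - toC (GA.map (S.f m) a))‖ ≤
    ‖z - toC (GA.map (S.f m) a)‖ := norm_map_le _ _
  rw [map_sub, CMax.map_coe, GA.map_map, S.tf] at h4
  have h5 := norm_sub_norm_le (CMax.map (S.t m (max m n) (le_max_left m n)) z)
    (toC (GA.map (S.f (max m n)) a))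
  rw [norm_toC] at h5
  linarith

end Pool.Agent.X265.KCo
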