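import Pool.Agent.Y483.CS.CMax

/-!
# Continuity of the norm of the maximal group C*-algebra
-/

set_option autoImplicit false

namespace Pool.Agent.X265.KCo

open Filter Topology UniformSpace Pool.Agent.Y483.CS
open scoped InnerProductSpace ComplexOrder ComplexConjugate

/-! ## limits along an ultrafilter -/

/-- the limit along an ultrafilter -/
noncomputable def limU (u : ℕ → ℂ) : ℂ := limUnder (hyperfilter ℕ : Filter ℕ) u

theorem tendsto_limU {u : ℕ → ℂ} {C : ℝ} (h : ∀ n, ‖u n‖ ≤ C) :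
    Tendsto u (hyperfilter ℕ : Filter ℕ) (𝓝 (limU u)) := by
  apply tendsto_nhds_limUnder
  have hc : IsCompact (Metric.closedBall (0 : ℂ) C) := isCompact_closedBall _ _
  obtain ⟨x, _, hx'⟩ := hc.ultrafilter_le_nhds ((hyperfilter ℕ).map u) (by
    rw [Filter.le_principal_iff]
    show u ⁻¹' _ ∈ (hyperfilter ℕ : Filter ℕ)
    refine Filter.univ_mem' fun n => ?_
    rw [Set.mem_preimage, mem_closedBall_zero_iff]
    exact h n)
  exact ⟨x, hx'⟩

/-! ## sequences of representations with vectors -/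

/-- a sequence of unitary representations with unit vectors -/
structure Dat (P : Type) [Group P] where
  /-- the representations -/
  π : ℕ → URep P
  /-- the vectors -/
  ξ : ∀ n, (π n).X.H
  nrm : ∀ n, ‖ξ n‖ = 1

variable {P : Type} [Group P] (D : Dat P)

/-- an operator applied to a vector -/
def app {X : HS} (A : X.Op) (x : X.H) : X.H := (show X.H →L[ℂ] X.H from A) x

theorem norm_app_le {X : HS} (A : X.Op) (x : X.H) : ‖app A x‖ ≤ ‖A‖ * ‖x‖ :=
  ContinuousLinearMap.le_opNorm (show X.H →L[ℂ] X.H from A) x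

theorem app_mul {X : HS} (A B : X.Op) (x : X.H) : app (A * B) x = app A (app B x) := rfl
theorem app_one {X : HS} (x : X.H) : app (1 : X.Op) x = x := rfl

/-- the vectors `π_n(a) ξ_n` -/
noncomputable def Dat.v (n : ℕ) : MonoidAlgebra ℂ P →ₗ[ℂ] (D.π n).X.H where
  toFun a := app (MonoidAlgebra.lift ℂ (D.π n).X.Op P (D.π n).rep a) (D.ξ n)
  map_add' a b := by rw [map_add]; rfl
  map_smul' c a := by rw [map_smul]; rfl

theorem Dat.v_norm (n : ℕ) (a : MonoidAlgebra ℂ P) : ‖D.v n a‖ ≤ GA.mx (G := P) a := by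
  refine (norm_app_le _ _).trans ?_
  rw [D.nrm n, mul_one]
  exact (D.π n).norm_alg_le a

theorem Dat.v_mul (n : ℕ) (p : P) (a : MonoidAlgebra ℂ P) :
    D.v n (MonoidAlgebra.single p 1 * a) = app ((D.π n).rep p) (D.v n a) := by
  show app (MonoidAlgebra.lift ℂ (D.π n).X.Op P (D.π n).rep _) (D.ξ n) = _
  rw [map_mul, MonoidAlgebra.lift_single, one_smul]
  rfl

theorem Dat.v_one (n : ℕ) : D.v n 1 = D.ξ n := by
  show app (MonoidAlgebra.lift ℂ (D.π n).X.Op P (D.π n).rep _) (D.ξ n) = _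
  rw [map_one]
  rfl

/-- the group algebra with the limit semi-inner product -/
@[nolint unusedArguments]
def Dat.E (_ : Dat P) : Type := MonoidAlgebra ℂ P

noncomputable instance : AddCommGroup D.E := inferInstanceAs (AddCommGroup (MonoidAlgebra ℂ P))
noncomputable instance : Module ℂ D.E := inferInstanceAs (Module ℂ (MonoidAlgebra ℂ P))

/-- the identification -/
noncomputable def Dat.toE : MonoidAlgebra ℂ P ≃ₗ[ℂ] D.E := LinearEquiv.refl ℂ _

theorem Dat.bdd (a b : D.E) (n : ℕ) :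
    ‖(⟪D.v n (D.toE.symm a), D.v n (D.toE.symm b)⟫_ℂ : ℂ)‖ ≤
      GA.mx (G := P) (D.toE.symm a) * GA.mx (G := P) (D.toE.symm b) :=
  (norm_inner_le_norm _ _).trans (mul_le_mul (D.v_norm n _) (D.v_norm n _) (norm_nonneg _)
    (GA.mx_nonneg _))

theorem Dat.tends (a b : D.E) : Tendsto
    (fun n => (⟪D.v n (D.toE.symm a), D.v n (D.toE.symm b)⟫_ℂ : ℂ)) (hyperfilter ℕ : Filter ℕ)
    (𝓝 (limU fun n => (⟪D.v n (D.toE.symm a), D.v n (D.toE.symm b)⟫_ℂ : ℂ))) :=
  tendsto_limU (D.bdd a b)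

/-- the limit semi-inner product -/
noncomputable abbrev Dat.core : PreInnerProductSpace.Core ℂ D.E where
  inner a b := limU fun n => (⟪D.v n (D.toE.symm a), D.v n (D.toE.symm b)⟫_ℂ : ℂ)
  conj_inner_symm a b := by
    have h1 := (Complex.continuous_conj.tendsto _).comp (D.tends b a)
    refine tendsto_nhds_unique h1 (Tendsto.congr (fun n => ?_) (D.tends a b))
    exact (inner_conj_symm _ _).symm
  re_inner_nonneg a := by
    have h1 := (Complex.continuous_re.tendsto _).comp (D.tends a a)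
    refine ge_of_tendsto' h1 fun n => ?_
    exact inner_self_nonneg (𝕜 := ℂ)
  add_left a b c := by
    refine tendsto_nhds_unique (D.tends (a + b) c)
      (Tendsto.congr (fun n => ?_) ((D.tends a c).add (D.tends b c)))
    rw [map_add, map_add, inner_add_left]
  smul_left a b r := by
    refine tendsto_nhds_unique (D.tends (r • a) b)
      (Tendsto.congr (fun n => ?_) ((D.tends a b).const_mul (conj r)))
    rw [map_smul, map_smul, inner_smul_left]

noncomputable instance : SeminormedAddCommGroup D.E :=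
  InnerProductSpace.Core.toSeminormedAddCommGroup (c := D.core)
noncomputable instance : InnerProductSpace ℂ D.E := InnerProductSpace.ofCore D.core

theorem Dat.inner_def (a b : D.E) :
    (⟪a, b⟫_ℂ : ℂ) = limU fun n => (⟪D.v n (D.toE.symm a), D.v n (D.toE.symm b)⟫_ℂ : ℂ) := rfl

theorem Dat.tends_norm (a : D.E) : Tendsto (fun n => ‖D.v n (D.toE.symm a)‖ ^ 2)
    (hyperfilter ℕ : Filter ℕ) (𝓝 (‖a‖ ^ 2)) := by
  have h1 := (Complex.continuous_re.tendsto _).comp (D.tends a a)
  have h2 : ‖a‖ ^ 2 = (limU fun n => (⟪D.v n (D.toE.symm a), D.v n (D.toE.symm a)⟫_ℂ : ℂ)).re := by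
    rw [← D.inner_def]
    exact norm_sq_eq_re_inner (𝕜 := ℂ) a
  rw [h2]
  refine Tendsto.congr (fun n => ?_) h1
  exact (norm_sq_eq_re_inner (𝕜 := ℂ) (D.v n (D.toE.symm a))).symm

theorem Dat.norm_le_of (a b : D.E) (h : ∀ᶠ n in atTop, ‖D.v n (D.toE.symm a)‖ ≤
    ‖D.v n (D.toE.symm b)‖) : ‖a‖ ≤ ‖b‖ := by
  have h1 : ‖a‖ ^ 2 ≤ ‖b‖ ^ 2 := by
    refine le_of_tendsto_of_tendsto (D.tends_norm a) (D.tends_norm b) ?_
    have h2 : ∀ᶠ n in (hyperfilter ℕ : Filter ℕ), ‖D.v n (D.toE.symm a)‖ ≤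
      ‖D.v n (D.toE.symm b)‖ := Nat.hyperfilter_le_atTop h
    filter_upwards [h2] with n hn
    exact pow_le_pow_left₀ (norm_nonneg _) hn 2
  exact (sq_le_sq₀ (norm_nonneg _) (norm_nonneg _)).1 h1

end Pool.Agent.X265.KCo
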