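import Pool.Agent.X265.KCo.Norm

/-!
# The limit representation
-/

set_option autoImplicit false

namespace Pool.Agent.X265.KCo

open Filter Topology UniformSpace Pool.Agent.Y483.CS
open scoped InnerProductSpace ComplexOrder ComplexConjugate

variable {P : Type} [Group P] (D : Dat P)

/-! ## the representation on the completion -/

/-- left multiplication with an element of the group algebra -/
noncomputable def Dat.ml (b : MonoidAlgebra ℂ P) : D.E →ₗ[ℂ] D.E :=
  D.toE.toLinearMap ∘ₗ (LinearMap.mulLeft ℂ b) ∘ₗ D.toE.symm.toLinearMap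

theorem Dat.ml_apply (b : MonoidAlgebra ℂ P) (a : D.E) :
    D.ml b a = D.toE (b * D.toE.symm a) := rfl

theorem Dat.ml_bound (p : P) (a : D.E) : ‖D.ml (MonoidAlgebra.single p 1) a‖ ≤ 1 * ‖a‖ := by
  rw [one_mul]
  apply D.norm_le_of
  refine Filter.Eventually.of_forall fun n => ?_
  rw [D.ml_apply, LinearEquiv.symm_apply_apply, D.v_mul]
  refine (norm_app_le _ _).trans ?_
  exact mul_le_of_le_one_left (norm_nonneg _) ((D.π n).norm_le p)

/-- left multiplication with a group element -/
noncomputable def Dat.lm (p : P) : D.E →L[ℂ] D.E :=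
  LinearMap.mkContinuous (D.ml (MonoidAlgebra.single p 1)) 1 (D.ml_bound p)

theorem Dat.lm_apply (p : P) (a : D.E) :
    D.lm p a = D.toE (MonoidAlgebra.single p 1 * D.toE.symm a) := rfl

theorem Dat.lm_norm (p : P) : ‖D.lm p‖ ≤ 1 := LinearMap.mkContinuous_norm_le _ zero_le_one _

theorem Dat.lm_comp (p q : P) : (D.lm p).comp (D.lm q) = D.lm (p * q) := by
  apply ContinuousLinearMap.ext
  intro a
  rw [ContinuousLinearMap.comp_apply, D.lm_apply, D.lm_apply, D.lm_apply, LinearEquiv.symm_apply_apply,
    ← mul_assoc, MonoidAlgebra.single_mul_single, one_mul]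

theorem Dat.lm_one : D.lm 1 = ContinuousLinearMap.id ℂ D.E := by
  apply ContinuousLinearMap.ext
  intro a
  rw [D.lm_apply, ← MonoidAlgebra.one_def, one_mul]
  rfl

/-- the Hilbert space -/
abbrev Dat.HH : Type := Completion D.E

/-- the operator of a group element -/
noncomputable def Dat.op (p : P) : D.HH →L[ℂ] D.HH := (D.lm p).completion

set_option maxHeartbeats 400000 in
theorem Dat.op_coe (p : P) (a : D.E) : D.op p (a : D.HH) = ((D.lm p a : D.E) : D.HH) := by
  simp [Dat.op]

theorem Dat.op_ext {A B : D.HH →L[ℂ] D.HH} (h : ∀ a : D.E, A a = B a) : A = B := by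
  apply ContinuousLinearMap.ext
  intro x
  induction x using Completion.induction_on with
  | hp => exact isClosed_eq A.continuous B.continuous
  | ih a => exact h a

theorem Dat.op_comp (p q : P) : (D.op p).comp (D.op q) = D.op (p * q) := by
  apply D.op_ext
  intro a
  rw [ContinuousLinearMap.comp_apply, D.op_coe, D.op_coe, D.op_coe, ← D.lm_comp]
  rfl

theorem Dat.op_one : D.op 1 = ContinuousLinearMap.id ℂ D.HH := by
  apply D.op_ext
  intro a
  rw [D.op_coe, D.lm_one]
  rfl

theorem Dat.op_norm (p : P) : ‖D.op p‖ ≤ 1 := by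
  refine ContinuousLinearMap.opNorm_le_bound _ zero_le_one fun x => ?_
  rw [one_mul]
  induction x using Completion.induction_on with
  | hp => exact isClosed_le (D.op p).continuous.norm continuous_norm
  | ih a =>
    rw [D.op_coe, Completion.norm_coe, Completion.norm_coe]
    exact ((D.lm p).le_opNorm a).trans (mul_le_of_le_one_left (norm_nonneg _) (D.lm_norm p))

/-- elements which eventually act in the same way have the same operator -/
theorem Dat.op_congr (p q : P) (h : ∀ᶠ n in atTop, (D.π n).rep p = (D.π n).rep q) :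
    D.op p = D.op q := by
  apply D.op_ext
  intro a
  rw [D.op_coe, D.op_coe]
  have h1 : ‖D.lm p a - D.lm q a‖ ≤ ‖(0 : D.E)‖ := by
    apply D.norm_le_of
    filter_upwards [h] with n hn
    have h2 : D.v n (D.toE.symm (D.lm p a - D.lm q a)) = 0 := by
      rw [map_sub, map_sub, D.lm_apply, D.lm_apply, LinearEquiv.symm_apply_apply,
        LinearEquiv.symm_apply_apply, D.v_mul, D.v_mul, hn, sub_self]
    rw [h2, norm_zero]
    exact norm_nonneg _
  rw [norm_zero] at h1
  have h2 : ‖((D.lm p a : D.E) : D.HH) - ((D.lm q a : D.E) : D.HH)‖ ≤ 0 := by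
    rw [← Completion.coe_sub, Completion.norm_coe]
    exact h1
  exact sub_eq_zero.1 (norm_le_zero_iff.1 h2)

end Pool.Agent.X265.KCo
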